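import Mathlib
import Pool.Agent.H40LT.HalfPos

/-!
# Galois representations, at least half of whose Frobenius eigenvalues come from geometry at a positive proportion of
# the primes

Let `K` be a number field, `V` a continuous `p`-adic representation of its absolute Galois group (a Tate twist of an
étale cohomology group of a smooth projective variety, say) and `ρ` a continuous irreducible one of dimension `n`, with
coefficients in a subfield `E` of `ℚ̄_p`.  Let `L` be a finite Galois extension of `K` such that the Zariski closure of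
the image of the Galois group of `L` under `V ⊕ ρ` is connected; `L = K` if this is so for `K`.  We show that `ρ` is a
subquotient of a tensor product of copies of `V` and of its dual if and only if for every element `g` of the Galois
group of `L` over `K` there is a set of primes, not of density zero, with a Frobenius element above `g` for which at
least `n / 2` of the `n` eigenvalues of `ρ` are quotients of products of boundedly many eigenvalues of `V`.

If the monodromy of `V ⊕ ρ` is connected then this is: for a set of primes of `K` which is not of density zero.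
-/

set_option autoImplicit false

namespace Pool.Agent.Results.MP_f68ac8_nt.HalfOfEigenvalues

open NumberField IsDedekindDomain Filter Matrix

/-- The absolute Galois group of `K`, with the Krull topology. -/
abbrev GK (K : Type) [Field K] : Type := Gal(AlgebraicClosure K/K)

/-- `σ` is an (arithmetic) Frobenius element at the prime `v` of `K`: there is a maximal ideal `M` above `v` of the ring
of all algebraic integers with `σ x ≡ x ^ N(v)` modulo `M` for all `x`. -/
def IsFrob {K : Type} [Field K] [NumberField K] (v : HeightOneSpectrum (𝓞 K)) (σ : GK K) : Prop :=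
  ∃ M : Ideal (𝓞 (AlgebraicClosure K)), M.IsMaximal ∧
    M.comap (algebraMap (𝓞 K) (𝓞 (AlgebraicClosure K))) = v.asIdeal ∧
    ∀ x : 𝓞 (AlgebraicClosure K), σ • x - x ^ Ideal.absNorm v.asIdeal ∈ M

/-- A set `S` of primes of `K` has natural density zero: the proportion of the primes in `S` among the primes of norm at
most `k` tends to zero. -/
def HasDensityZero {K : Type} [Field K] [NumberField K] (S : Set (HeightOneSpectrum (𝓞 K))) : Prop :=
  Tendsto (fun k : ℕ => (Nat.card {v : HeightOneSpectrum (𝓞 K) // Ideal.absNorm v.asIdeal ≤ k ∧ v ∈ S} : ℝ) /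
    (Nat.card {v : HeightOneSpectrum (𝓞 K) // Ideal.absNorm v.asIdeal ≤ k} : ℝ)) atTop (nhds 0)

/-- A representation in matrices is irreducible: its dimension is positive, and it has no stable subspace other than
zero and the whole space. -/
def IsIrreducible {Γ E : Type} [Group Γ] [Field E] {n : ℕ} (ρ : Γ →* Matrix (Fin n) (Fin n) E) : Prop :=
  0 < n ∧ ∀ U : Submodule E (Fin n → E), (∀ g, ∀ u ∈ U, ρ g *ᵥ u ∈ U) → U = ⊥ ∨ U = ⊤

/-- `ρ` is isomorphic to a subquotient of `T`: there are a stable subspace `U` of `T` and an equivariant linear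
surjection from `U` to `ρ`. -/
def IsSubquotient {Γ E I : Type} [Group Γ] [Field E] [Fintype I] [DecidableEq I] {n : ℕ}
    (T : Γ →* Matrix I I E) (ρ : Γ →* Matrix (Fin n) (Fin n) E) : Prop :=
  ∃ (U : Submodule E (I → E)) (π : U →ₗ[E] (Fin n → E)), Function.Surjective π ∧
    ∀ (g : Γ) (u : U), ∃ h : T g *ᵥ (u : I → E) ∈ U, π ⟨T g *ᵥ (u : I → E), h⟩ = ρ g *ᵥ π u

/-- The tensor product of `a` copies of `V` and `b` copies of its dual, in the coordinates given by the standard
basis. -/
def tensorRep {Γ E : Type} [Group Γ] [Field E] {N : ℕ} (V : Γ →* Matrix (Fin N) (Fin N) E) (a b : ℕ) :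
    Γ →* Matrix ((Fin a → Fin N) × (Fin b → Fin N)) ((Fin a → Fin N) × (Fin b → Fin N)) E where
  toFun g := Matrix.of fun p q => (∏ s, V g (p.1 s) (q.1 s)) * ∏ t, V g⁻¹ (q.2 t) (p.2 t)
  map_one' := by
    have h := (Pool.Agent.H40GO.tens V 1 a b 0).map_one
    rw [← h]
    ext p q
    simp [Pool.Agent.H40GO.tens]
  map_mul' g g' := by
    have h := (Pool.Agent.H40GO.tens V 1 a b 0).map_mul g g'
    have h1 : ∀ x, Pool.Agent.H40GO.tens V 1 a b 0 x =
        Matrix.of fun p q => (∏ s, V x (p.1 s) (q.1 s)) * ∏ t, V x⁻¹ (q.2 t) (p.2 t) := by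
      intro x
      ext p q
      simp [Pool.Agent.H40GO.tens]
    rw [h1, h1, h1] at h
    exact h

/-- The direct sum of `V` and `ρ`. -/
def directSum {Γ E : Type} [Group Γ] [Field E] {N n : ℕ} (V : Γ →* Matrix (Fin N) (Fin N) E)
    (ρ : Γ →* Matrix (Fin n) (Fin n) E) : Γ →* Matrix (Fin N ⊕ Fin n) (Fin N ⊕ Fin n) E where
  toFun g := Matrix.fromBlocks (V g) 0 0 (ρ g)
  map_one' := by rw [map_one, map_one, Matrix.fromBlocks_one]
  map_mul' g g' := by
    rw [Matrix.fromBlocks_multiply, map_mul, map_mul]
    simp

variable {p : ℕ} [Fact p.Prime] {E : IntermediateField ℚ_[p] (PadicAlgCl p)}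

/-- The monodromy of `T` is connected: every polynomial over the algebraic closure of `ℚ_p` in the entries of the
matrices which vanishes on an open subgroup vanishes on the whole group.  So the image of every open subgroup has the
same Zariski closure. -/
def HasConnectedMonodromy {Γ I : Type} [Group Γ] [TopologicalSpace Γ] [Fintype I] [DecidableEq I]
    (T : Γ →* Matrix I I E) : Prop :=
  ∀ D : Subgroup Γ, IsOpen (D : Set Γ) → ∀ P : MvPolynomial (I × I) (PadicAlgCl p),
    (∀ x ∈ D, MvPolynomial.eval (fun q => (T x q.1 q.2 : PadicAlgCl p)) P = 0) →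
    ∀ x, MvPolynomial.eval (fun q => (T x q.1 q.2 : PadicAlgCl p)) P = 0

/-- The eigenvalues of the matrix `M` over `E` in the algebraic closure of `ℚ_p`, with their (algebraic)
multiplicities. -/
noncomputable def eigenvalues {n : ℕ} (M : Matrix (Fin n) (Fin n) E) : Multiset (PadicAlgCl p) :=
  (M.charpoly.map (algebraMap E (PadicAlgCl p))).roots

/-- `z` is a product of at most `B` eigenvalues of `M`, divided by a product of at most `B` eigenvalues of `M`. -/
def IsMonomial {N : ℕ} (B : ℕ) (M : Matrix (Fin N) (Fin N) E) (z : PadicAlgCl p) : Prop :=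
  ∃ a ≤ B, ∃ b ≤ B, ∃ (α : Fin a → PadicAlgCl p) (β : Fin b → PadicAlgCl p),
    (∀ i, α i ∈ eigenvalues M) ∧ (∀ j, β j ∈ eigenvalues M) ∧ z * ∏ j, β j = ∏ i, α i

open scoped Classical in
/-- **Theorem.** Let `V` and `ρ` be continuous representations over `E` of the absolute Galois group `G` of a number
field `K`, with `ρ` irreducible of dimension `n`.  There is an open normal subgroup `U` of `G`, equal to `G` if the
monodromy of the direct sum of `V` and `ρ` is connected, with the following property.  `ρ` is a subquotient of a tensor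
product of copies of `V` and of its dual if and only if there is `B` such that for every `g` in `G` the set of the primes
`v` of `K` is not of density zero for which there is a Frobenius element `σ` at `v` in `g U` such that at least `n / 2`
of the eigenvalues of `ρ σ`, counted with multiplicity, are quotients of products of at most `B` eigenvalues of
`V σ`. -/
theorem result (K : Type) [Field K] [NumberField K] (p : ℕ) [Fact p.Prime]
    (E : IntermediateField ℚ_[p] (PadicAlgCl p)) (N n : ℕ)
    (V : GK K →* Matrix (Fin N) (Fin N) E) (ρ : GK K →* Matrix (Fin n) (Fin n) E)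
    (hV : Continuous V) (hρ : Continuous ρ) (hirr : IsIrreducible ρ) :
    ∃ U : Subgroup (GK K), U.Normal ∧ IsOpen (U : Set (GK K)) ∧ (HasConnectedMonodromy (directSum V ρ) → U = ⊤) ∧
      ((∃ a b : ℕ, IsSubquotient (tensorRep V a b) ρ) ↔
        ∃ B : ℕ, ∀ g : GK K, ¬ HasDensityZero {v : HeightOneSpectrum (𝓞 K) | ∃ σ, g⁻¹ * σ ∈ U ∧ IsFrob v σ ∧
          n ≤ 2 * Multiset.card ((eigenvalues (ρ σ)).filter (IsMonomial B (V σ)))}) := by
  have hFG : Continuous (algebraMap E (PadicAlgCl p)) := continuous_subtype_val
  have halg : Algebra.IsAlgebraic E (PadicAlgCl p) := Algebra.IsAlgebraic.tower_top (K := ℚ_[p]) E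
  have hcl : IsAlgClosure E (PadicAlgCl p) := ⟨inferInstance, halg⟩
  have hgal : IsGalois E (PadicAlgCl p) := inferInstance
  have hT : ∀ (a b : ℕ), tensorRep V a b = Pool.Agent.H40GO.tens V 1 a b 0 := by
    intro a b
    ext x p q
    simp [tensorRep, Pool.Agent.H40GO.tens]
  have hev : ∀ {m : ℕ} (U : GK K →* Matrix (Fin m) (Fin m) E) (σ : GK K),
      eigenvalues (U σ) = (Pool.Agent.H40GO.bc (PadicAlgCl p) U σ).charpoly.roots := by
    intro m U σ
    rw [Pool.Agent.H40GO.bc_charpoly]
    rfl
  have hroot : ∀ (σ : GK K) (w : PadicAlgCl p), w ∈ eigenvalues (V σ) ↔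
      (Pool.Agent.H40GO.bc (PadicAlgCl p) V σ).charpoly.IsRoot w := by
    intro σ w
    rw [hev, Polynomial.mem_roots (Matrix.charpoly_monic _).ne_zero]
  have hgood : ∀ (B : ℕ) (σ : GK K) (z : PadicAlgCl p), IsMonomial B (V σ) z ↔
      (Pool.Agent.H40GO.bigPoly (Pool.Agent.H40GO.bc (PadicAlgCl p) V) B σ).IsRoot z := by
    intro B σ z
    unfold IsMonomial
    simp only [Pool.Agent.H40GO.bigPoly_root, hroot]
  have hcard : ∀ (B : ℕ) (σ : GK K), (eigenvalues (ρ σ)).filter (IsMonomial B (V σ)) =
      (Pool.Agent.H40GO.bc (PadicAlgCl p) ρ σ).charpoly.roots.filter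
        (fun z => (Pool.Agent.H40GO.bigPoly (Pool.Agent.H40GO.bc (PadicAlgCl p) V) B σ).IsRoot z) := by
    intro B σ
    rw [hev]
    exact Multiset.filter_congr fun z _ => hgood B σ z
  simp only [hT, hcard]
  obtain ⟨U, hU1, hU2, hU3, hU4⟩ := Pool.Agent.H40LT.half_iff (G := PadicAlgCl p) hFG N n V ρ hV hρ
    ⟨⟨⟨0, hirr.1⟩⟩, hirr.2⟩
  refine ⟨U, hU1, hU2, fun h => hU3 ?_, hU4⟩
  intro D hD _ P hP x _
  exact h D hD P hP x

end Pool.Agent.Results.MP_f68ac8_nt.HalfOfEigenvalues
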