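import Pool.Agent.H22FM.Sq.Cst
import Pool.Agent.H22FM.Ex.Core
import Pool.Agent.H22FM.Ex.Cst
import Pool.Agent.H22FM.Ex.Pt
import Pool.Agent.H22FM.Ex.One
import Pool.Agent.H22FM.Ex.AU
import Pool.Agent.H22FM.E7.Pt

/-!
# Representations of any dimension: square-zero inertia, or spherical exponents of inertia

Theorem. Let `M` be a natural number and `δ > 0`. For all large primes `p` the following holds. For
all primes `q₁ ≡ 1 mod p` but a proportion of at most `δ`, for all primes `q₂ ≡ 1 mod p` but a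
proportion of at most `δ`, and so on up to `q_r`, and for every finite set `S` of primes which
consists of some of the `q_i` and of primes `≢ 0, 1 mod p`, there is a finite Galois extension `K` of
`ℚ` such that every continuous representation `ρ` of the absolute Galois group of `ℚ`, of any
dimension `n`, over any Noetherian local ring `A` of residue characteristic `p`, which

* is unramified outside `S` (so also at `p`),
* is unipotent modulo the maximal ideal,
* satisfies `(ρ(τ) - 1) ^ e(q_i) = 0` for the elements `τ` of the inertia groups at the `q_i ∈ S`, where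
  - `r ≤ 5` and all `e(q_i)` are two, or
  - `r ≤ 4`, `1 ≤ e(q_i) ≤ M`, and the sum of `1 - 1 / e(q_i)` over all but one of the `q_i ∈ S` is
    less than two,

factors through the Galois group of `K` over `ℚ`. The condition at `q_i` can be replaced by: the
dimension `n` is at most `e(q_i)` and `A` is a domain such that the primitive `p`-th roots of unity
have degree greater than `n` over the fraction field of `A` (for example `ℤ_p`, if `n < p - 1`).
There is a number `m` which depends only on `M` (and `m = 7` in the first case) such that the image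
of `ρ` is a finite group with at most `p ^ ((m - 1) 6 ^ (m - 1))` elements, the products of `m`
elements `ρ(g) - 1` vanish, and `p ^ (m - 1) (ρ(g) - 1) = 0`. So `ρ` is trivial if `p` is not a zero
divisor in `A`, for example if `A` is the ring of integers of a `p`-adic field.

(The Galois group of the maximal `p`-extension of `ℚ` unramified outside `q₁, …, q_r` is infinite for
`r = 4` and `r = 5`, by Golod and Shafarevich. For `r ≤ 3` it is finite for most `q_i`.)

The condition for four primes says that `1 / a + 1 / b + 1 / c > 1` for the exponents `a, b, c` at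
three of them: up to the order the four exponents are `1, *, *, *`, or `2, 2, *, *`, or `2, 3, c, *`
with `c ≤ 5`. So for three-dimensional representations over `ℤ_p` and `r = 4` the only condition on
inertia is `(ρ(τ) - 1) ^ 2 = 0` at one of the four primes; for the dimensions four and five there are
conditions only at two primes, where the exponents are two and three (or, for any dimension, two and
two). According to computations the algebra `R` below is infinite for the exponents `3, 3, 3, 3`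
and `2, 4, 4, 4` and `2, 3, 6, 6` and for six letters and the exponents `2`, so our method can not
give more for four primes.

Proof. Let `x_i = ρ(τ_i) - 1` for generators `τ_i` of tame inertia at `q_i`, let `λ_ij` be the power
residue symbols and `u_i = (q_i - 1) / p`. Give the `x_i` and `p` the weight one. The tame relations
say that `∑_j λ_ij (x_j x_i - x_i x_j) = u_i p x_i` up to terms of weight three. We show that for generic
`λ` and `u` over any field the words of length from one to `m` are linear combinations of the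
relations `x_i ^ (e_i) = 0` and `∑_j λ_ij (x_j x_i - x_i x_j) - u_i x_i = 0` multiplied by words from
both sides, of total degree at most `m`. This is an open condition, and it is verified at one
point. For five letters and `e_i = 2` this is done over the field with three elements by a certificate
which is checked by the kernel (the parts of weight `1, …, 7` of the algebra with generators `x_i` and
`p` have the dimensions `5, 20, 55, 120, 206, 236, 0`). For four letters it follows from a certificate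
which shows that the letters are combinations of relations of degree at most six without the
higher powers (`E7.A` over the field with seven elements with the powers `x_0 ^ 2` and `x_1 ^ 3` only), and
from a proof that the algebra `R` with the relations `∑_j λ_ij (x_j x_i - x_i x_j) = 0` and
`x_i ^ (e_i) = 0` is nilpotent. For the exponents `2, 2, M, M` this is `Ex.nilp`. For the exponents
`2, 3, 5, M` the relations say that `x_3` acts on the algebra `C` generated by the other letters by a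
derivation `δ`, that is, `R = C[x_3; δ] / (x_3 ^ M)`, where `C` has the relations `x_0 ^ 2`, `x_1 ^ 3`,
`x_2 ^ 5`, a quadratic relation `q` and the relations `δ ^ k (q)`; a certificate which is checked by the
kernel shows that `C` vanishes in the degree 29 (`E7.H`; the dimensions are
`1, 3, 7, 14, 25, 40, 56, 68, 78, 90, 100, 108, 114, 118, 120, 118, …, 2, 0`). For the exponents
`M, M, M, 1` it is elementary (`Ex.One`). So the
terms of weight `m` are contained in those of weight `m + 1`, hence in those of every weight, and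
vanish, as the `x_i` are nilpotent modulo the maximal ideal. It follows that the additive group
generated by the words in the `x_i` is finite. By Schwartz-Zippel and Chebotarev the condition holds for
most `q₁, …, q_r`. Over a domain as above `ρ(σ) ρ(τ) ρ(σ)⁻¹ = ρ(τ) ^ q` implies that the eigenvalues of
`ρ(τ)` are roots of unity of `p`-power order, hence `1`, so `(ρ(τ) - 1) ^ n = 0` for all inertia
elements `τ`.

The elements of Galois groups and the equidistribution of symbols are from the starting files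
(`Pool.Agent.TH831`, `Pool.Agent.Q202`, `Pool.Agent.N829`).
-/

set_option autoImplicit false

open NumberField Matrix IsLocalRing Filter

namespace Pool.Agent.Results.MP_f68ac8_nt.SphericalInertia

/-- the absolute Galois group of `ℚ`, with the Krull topology -/
abbrev GQ : Type := Gal(AlgebraicClosure ℚ/ℚ)

/-- `ρ` is unramified at all primes that do not lie above a prime number in `S`. -/
def UnramifiedOutside {n : ℕ} {A : Type} [CommRing A] (S : Finset ℕ) (ρ : GQ →* GL (Fin n) A) :
    Prop :=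
  ∀ P : Ideal (𝓞 (AlgebraicClosure ℚ)), P.IsMaximal →
    (∀ l ∈ S, (l : 𝓞 (AlgebraicClosure ℚ)) ∉ P) →
      ∀ τ : GQ, (∀ x : 𝓞 (AlgebraicClosure ℚ), τ • x - x ∈ P) → ρ τ = 1

/-- Every `ρ g` is unipotent modulo the maximal ideal: some power of `ρ g - 1` has all entries in
the maximal ideal. -/
def ResiduallyUnipotent {n : ℕ} {A : Type} [CommRing A] [IsLocalRing A] (ρ : GQ →* GL (Fin n) A) :
    Prop :=
  ∀ g, ∃ M : ℕ, ∀ i j, (((ρ g : Matrix (Fin n) (Fin n) A) - 1) ^ M) i j ∈ maximalIdeal A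

/-- `(ρ τ - 1) ^ e = 0` for all elements `τ` of the inertia groups at the primes above the prime
number `l`. -/
def InertiaExponent {n : ℕ} {A : Type} [CommRing A] (l e : ℕ) (ρ : GQ →* GL (Fin n) A) : Prop :=
  ∀ P : Ideal (𝓞 (AlgebraicClosure ℚ)), P.IsMaximal → (l : 𝓞 (AlgebraicClosure ℚ)) ∈ P → ∀ τ : GQ,
    (∀ x : 𝓞 (AlgebraicClosure ℚ), τ • x - x ∈ P) → ((ρ τ : Matrix (Fin n) (Fin n) A) - 1) ^ e = 0

/-- `A` is a domain, and the primitive `p`-th roots of unity (if there are any) have degree greater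
than `n` over the fraction field of `A`. -/
def FewRootsOfUnity (p n : ℕ) (A : Type) [CommRing A] : Prop :=
  ∃ _ : IsDomain A, ∀ ζ : AlgebraicClosure (FractionRing A), IsPrimitiveRoot ζ p →
    n < (minpoly (FractionRing A) ζ).natDegree

/-- All exponents are two. -/
def AllTwo (T : Finset ℕ) (e : ℕ → ℕ) : Prop := ∀ l ∈ T, e l = 2

/-- The exponents `e l`, `l ∈ T`, are between `1` and `M`, and the sum of `1 - 1 / e l` over all
`l ∈ T` but (at most) one is less than two. -/
def Spherical (M : ℕ) (T : Finset ℕ) (e : ℕ → ℕ) : Prop :=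
  (∀ l ∈ T, 1 ≤ e l ∧ e l ≤ M) ∧ ∃ l₀, ∑ l ∈ T.erase l₀, (1 - 1 / (e l : ℚ)) < 2

/-- The condition on inertia: there are exponents `e l` for the prime numbers `l ∈ S` congruent to
`1` modulo `p`, with the property `C`, such that `(ρ τ - 1) ^ (e l) = 0` for all elements `τ` of the
inertia groups above `l`, unless the dimension `n` is at most `e l` and `A` is a domain with few
roots of unity. -/
def InertiaCondition {n : ℕ} {A : Type} [CommRing A] (p : ℕ)
    (C : Finset ℕ → (ℕ → ℕ) → Prop) (S : Finset ℕ) (ρ : GQ →* GL (Fin n) A) : Prop :=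
  ∃ e : ℕ → ℕ, C (S.filter fun l => p ∣ l - 1) e ∧ ∀ l ∈ S, p ∣ l - 1 →
    InertiaExponent l (e l) ρ ∨ (n ≤ e l ∧ FewRootsOfUnity p n A)

/-- The conclusion: for every finite set `S` of prime numbers different from `p` of which those
congruent to `1` modulo `p` belong to `T` there is an open subgroup `U` of the Galois group such that
all representations `ρ` as above, of any rank `n` and over any ring `A`, are trivial on `U`, have a
finite image with at most `p ^ ((m - 1) * 6 ^ (m - 1))` elements, satisfy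
`p ^ (m - 1) (ρ g - 1) = 0`, all products of `m` elements `ρ g - 1` vanish, and `ρ` is trivial if `p` is
not a zero divisor in `A`. -/
def UniformlyFinite (p : ℕ) (C : Finset ℕ → (ℕ → ℕ) → Prop) (m : ℕ) (T : Set ℕ) : Prop :=
  ∀ S : Finset ℕ, (∀ l ∈ S, l.Prime ∧ l ≠ p ∧ (p ∣ l - 1 → l ∈ T)) →
    ∃ U : Subgroup GQ, IsOpen (U : Set GQ) ∧
    ∀ (A : Type) [CommRing A] [IsLocalRing A] [IsNoetherianRing A] [TopologicalSpace A],
      IsAdic (maximalIdeal A) → (p : A) ∈ maximalIdeal A →
      ∀ (n : ℕ) (ρ : GQ →* GL (Fin n) A), Continuous ρ →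
        UnramifiedOutside S ρ → ResiduallyUnipotent ρ → InertiaCondition p C S ρ →
        (∀ g ∈ U, ρ g = 1) ∧
        (Finite ρ.range ∧ Nat.card ρ.range ≤ p ^ ((m - 1) * 6 ^ (m - 1))) ∧
        (∀ g, (p : A) ^ (m - 1) • ((ρ g : Matrix (Fin n) (Fin n) A) - 1) = 0) ∧
        (∀ g : Fin m → GQ, (List.ofFn fun i => (ρ (g i) : Matrix (Fin n) (Fin n) A) - 1).prod = 0) ∧
        ((∀ a : A, (p : A) * a = 0 → a = 0) → ∀ g, ρ g = 1)

open Classical in
/-- The primes `q ≤ x` with `p ∣ q - 1`. -/
noncomputable def primesUpTo (p x : ℕ) : Finset ℕ :=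
  (Finset.range (x + 1)).filter fun q => q.Prime ∧ p ∣ q - 1

open Classical in
/-- `Most p δ R m T`: for all primes `q₁ ≡ 1 mod p`, `q₁ ∉ T`, but a proportion of at most `δ`, for
all primes `q₂ ≡ 1 mod p`, `q₂ ∉ T ∪ {q₁}`, but a proportion of at most `δ`, …, for all primes
`q_m ≡ 1 mod p`, `q_m ∉ T ∪ {q₁, …, q_{m-1}}`, but a proportion of at most `δ`, the set
`T ∪ {q₁, …, q_m}` has the property `R`. -/
def Most (p : ℕ) (δ : ℝ) (R : Set ℕ → Prop) : ℕ → Set ℕ → Prop
  | 0, T => R T
  | m + 1, T => ∀ ε : ℝ, 0 < ε → ∀ᶠ x : ℕ in atTop, (1 - δ - ε) * ((primesUpTo p x).card : ℝ) ≤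
      (((primesUpTo p x).filter fun q => q ∉ T ∧ Most p δ R m (insert q T)).card : ℝ)

/-! ### Proof -/

open Classical in
theorem most_iff {p : ℕ} {δ : ℝ} {R : Set ℕ → Prop} (m : ℕ) : ∀ T : Set ℕ,
    Most p δ R m T ↔ H22FM.Most p δ R m T := by
  induction m with
  | zero => exact fun T => Iff.rfl
  | succ m ih =>
    intro T
    have h : ∀ x, ((primesUpTo p x).filter fun q => q ∉ T ∧ Most p δ R m (insert q T)) =
        (H22FM.Pr p x).filter fun q => q ∉ T ∧ H22FM.Most p δ R m (insert q T) := by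
      intro x
      refine Finset.filter_congr fun q _ => ?_
      rw [ih]
    constructor
    · intro h1 ε hε
      filter_upwards [h1 ε hε] with x hx
      rw [h] at hx
      exact hx
    · intro h1 ε hε
      filter_upwards [h1 ε hε] with x hx
      rw [h]
      exact hx

/-- the powers at the primes -/
theorem pow_at {p : ℕ} [hp : Fact p.Prime] {S : Finset ℕ} (hS' : ∀ l ∈ S, l.Prime ∧ l ≠ p)
    {χ : ∀ j : ℕ, (ZMod j)ˣ →* Multiplicative (ZMod p)} (d : TH831.NA.Dt p S χ)
    {A : Type} [CommRing A] [IsLocalRing A] [IsNoetherianRing A] [TopologicalSpace A]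
    (hA : IsAdic (maximalIdeal A)) (hpA : (p : A) ∈ maximalIdeal A) {n : ℕ}
    {ρ : GQ →* GL (Fin n) A} (hρ : Continuous ρ) (hres : ResiduallyUnipotent ρ) {l e : ℕ}
    (hl : l ∈ S) (hpl : p ∣ l - 1)
    (h : InertiaExponent l e ρ ∨ (n ≤ e ∧ FewRootsOfUnity p n A)) :
    ((ρ (d.τ l) : Matrix (Fin n) (Fin n) A) - 1) ^ e = 0 := by
  rcases h with h7 | ⟨hn, hdom, hζ⟩
  · exact h7 (d.P l) (d.hP _ (hS' _ hl).1).1 (d.hP _ (hS' _ hl).1).2 (d.τ l) (d.hτ _ hl hpl)
  · have h1 := H22FM.Ex.AU.t A p hp.out hpA n hζ (ρ (d.σ l)) (ρ (d.τ l)) l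
      (hS' _ hl).1.two_le (H22FM.Ex.tame_rel hS' d hA hpA hρ hres hl hpl) (hres _)
    rw [← Nat.add_sub_cancel' hn, pow_add, h1, zero_mul]

/-- the criterion for square-zero inertia -/
theorem crit0 {p : ℕ} [hp : Fact p.Prime] (hp2 : 2 < p)
    {χ : ∀ j : ℕ, (ZMod j)ˣ →* Multiplicative (ZMod p)} {q : Fin 5 → ℕ}
    (hq : Function.Injective q) (hχ : ∀ i, ∃ x, χ (q i) x ≠ 1)
    (hst : H22FM.Sq.Star 7 (H22FM.vr (N829.QD.dat χ q))) :
    UniformlyFinite p AllTwo 7 (Set.range q) := by
  classical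
  intro S hS
  have hS' : ∀ l ∈ S, l.Prime ∧ l ≠ p := fun l hl => ⟨(hS l hl).1, (hS l hl).2.1⟩
  obtain ⟨d⟩ := TH831.NA.exists_dt S hS' χ (fun l hl hpl => by
    obtain ⟨i, rfl⟩ := (hS l hl).2.2 hpl
    exact hχ i)
  obtain ⟨U, hU, hUE⟩ := H22FM.Ex.core hS' d le_rfl (m := 7) (by norm_num) hq
    (fun l hl hpl => (hS l hl).2.2 hpl)
  refine ⟨U, hU, ?_⟩
  intro A _ _ _ _ hA hpA n ρ hρ hur hres hin
  refine hUE A hA hpA n ρ hρ (fun g hg => ?_) hres (fun _ => 2)
    (fun _ => ⟨by norm_num, hp2.le⟩) (H22FM.Ex.star_two hst) (fun i hi hpi => ?_)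
  · obtain ⟨P, hP, hPS, hgP⟩ := hg
    exact hur P hP hPS g hgP
  · obtain ⟨e, he, h1⟩ := hin
    have h2 := h1 (q i) hi hpi
    rw [he (q i) (Finset.mem_filter.2 ⟨hi, hpi⟩)] at h2
    exact pow_at hS' d hA hpA hρ hres hi hpi h2

/-- the spherical exponents at the letters -/
def Adm (M k : ℕ) (e : Fin k → ℕ) : Prop :=
  (∀ i, 1 ≤ e i ∧ e i ≤ M) ∧ ∃ i₀, ∑ i ∈ Finset.univ.erase i₀, (1 - 1 / (e i : ℚ)) < 2

theorem one_sub_nonneg {a : ℕ} (h : 1 ≤ a) : (0 : ℚ) ≤ 1 - 1 / (a : ℚ) := by
  have h1 : (1 : ℚ) ≤ a := by exact_mod_cast h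
  rw [sub_nonneg]
  exact div_le_one_of_le₀ h1 (by positivity)

/-- the exponents at the letters -/
theorem adm_of {p M : ℕ} {S : Finset ℕ} {q : Fin 4 → ℕ} (hq : Function.Injective q)
    (hpq : ∀ i, p ∣ q i - 1) {e : ℕ → ℕ} (h : Spherical M (S.filter fun l => p ∣ l - 1) e) :
    Adm (max M 2) 4 (fun i => if q i ∈ S then e (q i) else 1) := by
  classical
  obtain ⟨h1, l₀, h2⟩ := h
  have hmem : ∀ i, q i ∈ S → q i ∈ S.filter fun l => p ∣ l - 1 :=
    fun i hi => Finset.mem_filter.2 ⟨hi, hpq i⟩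
  refine ⟨fun i => ?_, ?_⟩
  · beta_reduce
    split_ifs with hi
    · have := h1 (q i) (hmem i hi)
      exact ⟨this.1, this.2.trans (le_max_left _ _)⟩
    · exact ⟨le_rfl, by omega⟩
  · have h3 : ∃ i₀ : Fin 4, ∀ i, i ≠ i₀ → q i ≠ l₀ := by
      by_cases h4 : ∃ i, q i = l₀
      · obtain ⟨i₀, rfl⟩ := h4
        exact ⟨i₀, fun i hi h5 => hi (hq h5)⟩
      · push Not at h4
        exact ⟨0, fun i _ => h4 i⟩
    obtain ⟨i₀, h3⟩ := h3
    refine ⟨i₀, lt_of_le_of_lt ?_ h2⟩
    have h4 : ∑ i ∈ Finset.univ.erase i₀,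
        (1 - 1 / (((if q i ∈ S then e (q i) else 1 : ℕ)) : ℚ)) =
        ∑ i ∈ (Finset.univ.erase i₀).filter (fun i => q i ∈ S), (1 - 1 / (e (q i) : ℚ)) := by
      rw [Finset.sum_filter]
      refine Finset.sum_congr rfl fun i _ => ?_
      split_ifs with hi
      · rfl
      · norm_num
    rw [h4, ← Finset.sum_image (g := q) (f := fun l => (1 - 1 / (e l : ℚ)))
      (fun i _ j _ hij => hq hij)]
    refine Finset.sum_le_sum_of_subset_of_nonneg ?_ ?_
    · intro l hl
      obtain ⟨i, hi, rfl⟩ := Finset.mem_image.1 hl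
      obtain ⟨hi1, hi2⟩ := Finset.mem_filter.1 hi
      exact Finset.mem_erase.2 ⟨h3 i (Finset.mem_erase.1 hi1).1, hmem i hi2⟩
    · intro l hl _
      exact one_sub_nonneg (h1 l (Finset.mem_of_mem_erase hl)).1

/-- the criterion for spherical exponents -/
theorem crit2 {p : ℕ} [hp : Fact p.Prime] {M m : ℕ} (hpM : max M 2 ≤ p) (hm : 1 ≤ m)
    {χ : ∀ j : ℕ, (ZMod j)ˣ →* Multiplicative (ZMod p)} {q : Fin 4 → ℕ}
    (hq : Function.Injective q) (hpq : ∀ i, p ∣ q i - 1) (hχ : ∀ i, ∃ x, χ (q i) x ≠ 1)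
    (hst : ∀ e, Adm (max M 2) 4 e → H22FM.Ex.Star e m (H22FM.vr (N829.QD.dat χ q))) :
    UniformlyFinite p (Spherical M) m (Set.range q) := by
  classical
  intro S hS
  have hS' : ∀ l ∈ S, l.Prime ∧ l ≠ p := fun l hl => ⟨(hS l hl).1, (hS l hl).2.1⟩
  obtain ⟨d⟩ := TH831.NA.exists_dt S hS' χ (fun l hl hpl => by
    obtain ⟨i, rfl⟩ := (hS l hl).2.2 hpl
    exact hχ i)
  obtain ⟨U, hU, hUE⟩ := H22FM.Ex.core hS' d (show 4 ≤ 5 by norm_num) hm hq
    (fun l hl hpl => (hS l hl).2.2 hpl)
  refine ⟨U, hU, ?_⟩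
  intro A _ _ _ _ hA hpA n ρ hρ hur hres hin
  obtain ⟨e, he, h1⟩ := hin
  have hadm := adm_of hq hpq he
  refine hUE A hA hpA n ρ hρ (fun g hg => ?_) hres
    (fun i => if q i ∈ S then e (q i) else 1)
    (fun i => ⟨(hadm.1 i).1, (hadm.1 i).2.trans hpM⟩) (hst _ hadm) (fun i hi hpi => ?_)
  · obtain ⟨P, hP, hPS, hgP⟩ := hg
    exact hur P hP hPS g hgP
  · rw [if_pos hi]
    exact pow_at hS' d hA hpA hρ hres hi hpi (h1 (q i) hi hpi)

/-! ### the special points -/

theorem inv_le {x k : ℕ} (hk : 1 ≤ k) (h : k ≤ x) : 1 / (x : ℚ) ≤ 1 / (k : ℚ) :=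
  one_div_le_one_div_of_le (by exact_mod_cast hk) (by exact_mod_cast h)

theorem tri {a b c : ℕ} (ha : 2 ≤ a) (hb : 3 ≤ b) (hc : 3 ≤ c)
    (h : 1 < 1 / (a : ℚ) + 1 / (b : ℚ) + 1 / (c : ℚ)) :
    a = 2 ∧ (b = 3 ∧ c ≤ 5 ∨ c = 3 ∧ b ≤ 5) := by
  have b3 := inv_le (by norm_num) hb
  have c3 := inv_le (by norm_num) hc
  have a2 := inv_le (by norm_num) ha
  norm_num at b3 c3 a2
  simp only [one_div] at h
  have ha' : a = 2 := by
    by_contra hne
    have := inv_le (k := 3) (x := a) (by norm_num) (by omega)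
    norm_num at this
    linarith
  refine ⟨ha', ?_⟩
  by_cases hb4 : 4 ≤ b
  · by_cases hc4 : 4 ≤ c
    · exfalso
      have h1 := inv_le (by norm_num) hb4
      have h2 := inv_le (by norm_num) hc4
      norm_num at h1 h2
      linarith
    · refine Or.inr ⟨by omega, ?_⟩
      by_contra hb6
      have h1 := inv_le (k := 6) (x := b) (by norm_num) (by omega)
      norm_num at h1
      linarith
  · refine Or.inl ⟨by omega, ?_⟩
    by_contra hc6
    have h1 := inv_le (k := 6) (x := c) (by norm_num) (by omega)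
    norm_num at h1
    linarith

/-- fewer or lower powers -/
theorem star_le {K : Type} [CommRing K] {x : H22FM.Sg 4 → K} {m : ℕ} {e e' : Fin 4 → ℕ}
    (h : H22FM.Ex.Star e' m x) (he : ∀ i, 1 ≤ e i ∧ e i ≤ e' i) : H22FM.Ex.Star e m x :=
  fun w h1 h2 => H22FM.Ex.relS_exp (fun i _ => he i) m (h w h1 h2)

theorem exists_perm4 (a b c d : Fin 4) (hab : a ≠ b) (hac : a ≠ c) (had : a ≠ d) (hbc : b ≠ c)
    (hbd : b ≠ d) (hcd : c ≠ d) :
    ∃ σ : Equiv.Perm (Fin 4), σ a = 0 ∧ σ b = 1 ∧ σ c = 2 ∧ σ d = 3 := by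
  have hinj : Function.Injective ![a, b, c, d] := by
    intro i j hij
    fin_cases i <;> fin_cases j <;> first | rfl | (exfalso; revert hij; simp; tauto)
  let τ : Equiv.Perm (Fin 4) := Equiv.ofBijective _ (Finite.injective_iff_bijective.1 hinj)
  refine ⟨τ.symm, ?_, ?_, ?_, ?_⟩
  · rw [Equiv.symm_apply_eq]; rfl
  · rw [Equiv.symm_apply_eq]; rfl
  · rw [Equiv.symm_apply_eq]; rfl
  · rw [Equiv.symm_apply_eq]; rfl

/-- the exponents `2, 3, c, *` -/
theorem star_E {M : ℕ} {e : Fin 4 → ℕ} (he : ∀ i, 1 ≤ e i ∧ e i ≤ M) (hM : 1 ≤ M)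
    {a b c d : Fin 4} (hab : a ≠ b) (hac : a ≠ c) (had : a ≠ d) (hbc : b ≠ c)
    (hbd : b ≠ d) (hcd : c ≠ d) (ha : e a = 2) (hb : e b = 3) (hc : e c ≤ 5) :
    ∃ (K₀ : Type) (_ : Field K₀) (m : ℕ) (x₀ : H22FM.Sg 4 → K₀),
      1 ≤ m ∧ H22FM.Ex.Star e m x₀ := by
  obtain ⟨σ, h0, h1, h2, h3⟩ := exists_perm4 a b c d hab hac had hbc hbd hcd
  obtain ⟨m, x, hm, h⟩ := H22FM.E7.star_eC_perm hM σ
  have : Fact (Nat.Prime 7) := ⟨by norm_num⟩
  refine ⟨ZMod 7, inferInstance, m, x, hm, star_le h fun i => ⟨(he i).1, ?_⟩⟩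
  show e i ≤ H22FM.E7.eC M (σ i)
  have h4 : i = a ∨ i = b ∨ i = c ∨ i = d := by
    by_contra hcon
    push Not at hcon
    obtain ⟨k1, k2, k3, k4⟩ := hcon
    have j0 : σ i ≠ 0 := fun h => k1 (σ.injective (h.trans h0.symm))
    have j1 : σ i ≠ 1 := fun h => k2 (σ.injective (h.trans h1.symm))
    have j2 : σ i ≠ 2 := fun h => k3 (σ.injective (h.trans h2.symm))
    have j3 : σ i ≠ 3 := fun h => k4 (σ.injective (h.trans h3.symm))
    omega
  rcases h4 with rfl | rfl | rfl | rfl
  · rw [h0, ha]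
    exact le_rfl
  · rw [h1, hb]
    exact le_rfl
  · rw [h2]
    exact hc
  · rw [h3]
    exact (he _).2

/-- **the special points** -/
theorem exists_star {M : ℕ} (hM : 2 ≤ M) {e : Fin 4 → ℕ} (h : Adm M 4 e) :
    ∃ (K₀ : Type) (_ : Field K₀) (m : ℕ) (x₀ : H22FM.Sg 4 → K₀),
      1 ≤ m ∧ H22FM.Ex.Star e m x₀ := by
  obtain ⟨he, i₀, hs⟩ := h
  by_cases h1 : ∃ i, e i = 1
  · obtain ⟨i, hi⟩ := h1
    refine ⟨ℚ, inferInstance, 3 * M + 3, _, by omega,
      star_le (H22FM.Ex.star_perm (Equiv.swap i 3) (H22FM.Ex.One.star_eO (M := M) (by omega)))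
      fun j => ⟨(he j).1, ?_⟩⟩
    show e j ≤ H22FM.Ex.One.eO M (Equiv.swap i 3 j)
    by_cases hji : j = i
    · rw [hji, Equiv.swap_apply_left, hi]
      exact le_rfl
    · have h2 : Equiv.swap i 3 j ≠ 3 := by
        intro h3
        exact hji ((Equiv.swap i 3).injective (h3.trans (Equiv.swap_apply_left i 3).symm))
      have h3 : ∀ k : Fin 4, k ≠ 3 → H22FM.Ex.One.eO M k = M := by
        intro k hk
        fin_cases k
        · rfl
        · rfl
        · rfl
        · exact absurd rfl hk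
      rw [h3 _ h2]
      exact (he j).2
  push Not at h1
  have h2 : ∀ i, 2 ≤ e i := fun i => by
    have := (he i).1
    have := h1 i
    omega
  by_cases h3 : ∃ i j, i ≠ j ∧ e i = 2 ∧ e j = 2
  · obtain ⟨i, j, hij, hi, hj⟩ := h3
    obtain ⟨m, x, hm, h⟩ := H22FM.Ex.star_eij hM i j hij
    refine ⟨ZMod 3, inferInstance, m, x, hm, star_le h fun k => ⟨(he k).1, ?_⟩⟩
    show e k ≤ if k = i ∨ k = j then 2 else M
    split_ifs with hk
    · rcases hk with rfl | rfl
      · rw [hi]
      · rw [hj]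
    · exact (he k).2
  push Not at h3
  -- at most one exponent is two
  have key : ∀ a b c : Fin 4, a ≠ b → a ≠ c → b ≠ c → i₀ ≠ a → i₀ ≠ b → i₀ ≠ c →
      (Finset.univ : Finset (Fin 4)).erase i₀ = {a, b, c} →
      ∃ (K₀ : Type) (_ : Field K₀) (m : ℕ) (x₀ : H22FM.Sg 4 → K₀),
      1 ≤ m ∧ H22FM.Ex.Star e m x₀ := by
    intro a b c hab hac hbc ha hb hc hset
    rw [hset, Finset.sum_insert (by simp [hab, hac]), Finset.sum_insert (by simp [hbc]),
      Finset.sum_singleton] at hs
    have hs' : 1 < 1 / (e a : ℚ) + 1 / (e b : ℚ) + 1 / (e c : ℚ) := by linarith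
    have g3 : ∀ i, e i ≠ 2 → 3 ≤ e i := fun i hi => by
      have := h2 i
      omega
    by_cases ea : e a = 2
    · have eb := g3 b (h3 a b hab ea)
      have ec := g3 c (h3 a c hac ea)
      obtain ⟨-, h5 | h5⟩ := tri (h2 a) eb ec hs'
      · exact star_E he (by omega) hab hac ha.symm hbc hb.symm hc.symm ea h5.1 h5.2
      · exact star_E he (by omega) hac hab ha.symm hbc.symm hc.symm hb.symm ea h5.1 h5.2
    · by_cases eb : e b = 2
      · have ec := g3 c (h3 b c hbc eb)
        obtain ⟨-, h5 | h5⟩ := tri (a := e b) (b := e a) (c := e c) (h2 b) (g3 a ea) ec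
          (by linarith)
        · exact star_E he (by omega) hab.symm hbc hb.symm hac ha.symm hc.symm eb h5.1 h5.2
        · exact star_E he (by omega) hbc hab.symm hb.symm hac.symm hc.symm ha.symm eb h5.1 h5.2
      · obtain ⟨ec, h5 | h5⟩ := tri (a := e c) (b := e a) (c := e b) (h2 c) (g3 a ea) (g3 b eb)
          (by linarith)
        · exact star_E he (by omega) hac.symm hbc.symm hc.symm hab ha.symm hb.symm ec h5.1 h5.2
        · exact star_E he (by omega) hbc.symm hac.symm hc.symm hab.symm hb.symm ha.symm ec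
            h5.1 h5.2
  have hi₀ : i₀ = 0 ∨ i₀ = 1 ∨ i₀ = 2 ∨ i₀ = 3 := by omega
  rcases hi₀ with rfl | rfl | rfl | rfl
  · exact key 1 2 3 (by decide) (by decide) (by decide) (by decide) (by decide) (by decide)
      (by decide)
  · exact key 0 2 3 (by decide) (by decide) (by decide) (by decide) (by decide) (by decide)
      (by decide)
  · exact key 0 1 3 (by decide) (by decide) (by decide) (by decide) (by decide) (by decide)
      (by decide)
  · exact key 0 1 2 (by decide) (by decide) (by decide) (by decide) (by decide) (by decide)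
      (by decide)

theorem uf_mono {C : Finset ℕ → (ℕ → ℕ) → Prop} {m : ℕ} (p : ℕ) (T T' : Set ℕ) (hTT : T ⊆ T')
    (h : UniformlyFinite p C m T') : UniformlyFinite p C m T :=
  fun S hS => h S fun l hl => ⟨(hS l hl).1, (hS l hl).2.1, fun hpl => hTT ((hS l hl).2.2 hpl)⟩

/-- **The theorem.** -/
theorem result (M : ℕ) :
    (∀ r ≤ 5, ∀ δ : ℝ, 0 < δ → ∃ p₀ : ℕ, ∀ p : ℕ, p.Prime → p₀ ≤ p →
      Most p δ (UniformlyFinite p AllTwo 7) r ∅) ∧
    ∃ m : ℕ, ∀ r ≤ 4, ∀ δ : ℝ, 0 < δ → ∃ p₀ : ℕ, ∀ p : ℕ, p.Prime → p₀ ≤ p →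
      Most p δ (UniformlyFinite p (Spherical M) m) r ∅ := by
  refine ⟨fun r hr δ hδ => ?_, ?_⟩
  · obtain ⟨p₀, hp₀⟩ := H22FM.Sq.most5 hr (fun p => UniformlyFinite p AllTwo 7)
      (fun p T T' hTT h => uf_mono p T T' hTT h)
      (fun p _ hp2 χ hχ l hl hpl hli hb => crit0 hp2 hli
        (fun i => (hχ (l i) (hl i) (hpl i)).1) hb) δ hδ
    refine ⟨p₀, fun p hp hpp => ?_⟩
    have : Fact p.Prime := ⟨hp⟩
    exact (most_iff r ∅).2 (hp₀ p hpp)
  · have hfin : {e | Adm (max M 2) 4 e}.Finite := by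
      refine (Set.finite_Icc (fun _ => 0) (fun _ => max M 2)).subset ?_
      rintro e ⟨he, -⟩
      exact ⟨fun i => Nat.zero_le _, fun i => (he i).2⟩
    obtain ⟨m, hm, hmain⟩ := H22FM.Ex.mostE (r := 4) (Adm (max M 2)) hfin
      (fun e he => exists_star (le_max_right _ _) he)
    refine ⟨m, fun r hr δ hδ => ?_⟩
    obtain ⟨p₀, hp₀⟩ := hmain r hr (fun p => UniformlyFinite p (Spherical M) m)
      (fun p T T' hTT h => uf_mono p T T' hTT h) (max M 2)
      (fun p _ hp2 hpM χ hχ l hl hpl hli hb => crit2 hpM hm hli hpl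
        (fun i => (hχ (l i) (hl i) (hpl i)).1) hb) δ hδ
    refine ⟨p₀, fun p hp hpp => ?_⟩
    have : Fact p.Prime := ⟨hp⟩
    exact (most_iff r ∅).2 (hp₀ p hpp)

end Pool.Agent.Results.MP_f68ac8_nt.SphericalInertia
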