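import Pool.Agent.H22FM.Most
import Pool.Agent.H22FM.Sy7

/-!
# Symplectic representations whose inertia groups act by transvections

Theorem. Let `r ≥ 0` and `δ > 0`. For all large primes `p` the following holds. For all primes
`q₁ ≡ 1 mod p` but a proportion of at most `δ`, for all primes `q₂ ≡ 1 mod p` but a proportion of at
most `δ`, and so on up to `q_r`, every continuous representation `ρ` of the absolute Galois group of
`ℚ`, of any dimension `n`, is trivial if it

* has values in the symplectic group of a perfect alternating form over a Noetherian local ring `A`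
  with finite residue field in which `p` is a non-unit and not a zero divisor (for example the ring
  of integers of a `p`-adic field),
* is unramified at `p` and outside `q₁, …, q_r` and finitely many primes `≢ 1 mod p`,
* is unipotent modulo the maximal ideal,
* and maps the elements of the inertia groups at `q₁, …, q_r` to transvections (or to `1`).

There is no bound on `r` and `n`. (The Galois group of the maximal `p`-extension of `ℚ` unramified
outside `q₁, …, q_r` is infinite for `r ≥ 4`.)

Proof. Let `A` be a discrete valuation ring, `τ_i` a generator of tame inertia at `q_i` and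
`ρ(τ_i) - 1 = K s_i s_iᵀ` with vectors `s_i` over the algebraic closure of the field of fractions,
where `K` is the inverse of the matrix of the form. Let `G_ij = s_iᵀ K s_j`, an alternating matrix
of positive valuation. If `G` is not zero, divide by an entry `γ` of minimal valuation. The tame
relation and `ρ(σ_i) = 1 + ∑ λ_ij (ρ(τ_j) - 1) + …` give, modulo the maximal ideal,
`2 ∑_j λ_ij G_ij G_jk + c u_i G_ik = 0` where `c` is the residue of `p / γ`, `λ_ij` are the power
residue symbols and `u_i = (q_i - 1) / p`. An argument with transcendence degrees shows that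
for algebraically independent `λ_ij`, `u_i` this has no nonzero alternating solution `G`, so that
there is none if `(λ, u)` is not a zero of some nonzero polynomial with integral coefficients
(elimination), and by Schwartz-Zippel and Chebotarev this holds for most `q₁, …, q_r`. So `G = 0`,
the products of the `ρ(τ_i) - 1` vanish and the tame relation shows that `ρ` is trivial. The general
case follows since `A` has enough points in discrete valuation rings.

The elements of Galois groups and the equidistribution of symbols are from the starting files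
(`Pool.Agent.TH831`, `Pool.Agent.Q202`, `Pool.Agent.N829`).
-/

set_option autoImplicit false

open NumberField Matrix IsLocalRing Filter

namespace Pool.Agent.Results.MP_f68ac8_nt.SymplecticTransvections

/-- `ρ` is unramified at all primes that do not lie above a prime number in `S`. -/
def UnramifiedOutside {n : ℕ} {A : Type} [CommRing A] (S : Finset ℕ)
    (ρ : Gal(AlgebraicClosure ℚ/ℚ) →* GL (Fin n) A) : Prop :=
  ∀ P : Ideal (𝓞 (AlgebraicClosure ℚ)), P.IsMaximal →
    (∀ l ∈ S, (l : 𝓞 (AlgebraicClosure ℚ)) ∉ P) →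
      ∀ τ : Gal(AlgebraicClosure ℚ/ℚ), (∀ x : 𝓞 (AlgebraicClosure ℚ), τ • x - x ∈ P) → ρ τ = 1

/-- Every `ρ g` is unipotent modulo the maximal ideal: some power of `ρ g - 1` has all entries in
the maximal ideal. -/
def ResiduallyUnipotent {n : ℕ} {A : Type} [CommRing A] [IsLocalRing A]
    (ρ : Gal(AlgebraicClosure ℚ/ℚ) →* GL (Fin n) A) : Prop :=
  ∀ g, ∃ M : ℕ, ∀ i j, (((ρ g : Matrix (Fin n) (Fin n) A) - 1) ^ M) i j ∈ maximalIdeal A

/-- `ρ` preserves a perfect alternating form: there is a matrix `J` with `Jᵀ = -J` (the residue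
characteristic will be odd) and invertible determinant such that `(ρ g)ᵀ J (ρ g) = J` for all `g`. -/
def Symplectic {n : ℕ} {A : Type} [CommRing A]
    (ρ : Gal(AlgebraicClosure ℚ/ℚ) →* GL (Fin n) A) : Prop :=
  ∃ J : Matrix (Fin n) (Fin n) A, Jᵀ = - J ∧ IsUnit J.det ∧
    ∀ g, (ρ g : Matrix (Fin n) (Fin n) A)ᵀ * J * (ρ g : Matrix (Fin n) (Fin n) A) = J

/-- The elements `τ` of the inertia groups at the primes above the prime numbers in `S` that are
congruent to `1` modulo `p` act by transvections or trivially: all two by two minors of `ρ τ - 1`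
vanish. -/
def InertiaByTransvections {n : ℕ} {A : Type} [CommRing A] (p : ℕ) (S : Finset ℕ)
    (ρ : Gal(AlgebraicClosure ℚ/ℚ) →* GL (Fin n) A) : Prop :=
  ∀ l ∈ S, p ∣ l - 1 → ∀ P : Ideal (𝓞 (AlgebraicClosure ℚ)), P.IsMaximal →
    (l : 𝓞 (AlgebraicClosure ℚ)) ∈ P → ∀ τ : Gal(AlgebraicClosure ℚ/ℚ),
      (∀ x : 𝓞 (AlgebraicClosure ℚ), τ • x - x ∈ P) → ∀ i j k m,
        ((ρ τ : Matrix (Fin n) (Fin n) A) - 1) i j * ((ρ τ : Matrix (Fin n) (Fin n) A) - 1) k m =
          ((ρ τ : Matrix (Fin n) (Fin n) A) - 1) i m * ((ρ τ : Matrix (Fin n) (Fin n) A) - 1) k j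

/-- The conclusion: all such representations, of any rank `n`, ramified only at primes different
from `p` of which those congruent to `1` modulo `p` belong to `T`, are trivial. -/
def OnlyTrivial (p : ℕ) (T : Set ℕ) : Prop :=
  ∀ S : Finset ℕ, (∀ l ∈ S, l.Prime ∧ l ≠ p ∧ (p ∣ l - 1 → l ∈ T)) →
    ∀ (A : Type) [CommRing A] [IsLocalRing A] [IsNoetherianRing A] [TopologicalSpace A],
      IsAdic (maximalIdeal A) → Finite (ResidueField A) → (p : A) ∈ maximalIdeal A →
      (∀ a : A, (p : A) * a = 0 → a = 0) →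
      ∀ (n : ℕ) (ρ : Gal(AlgebraicClosure ℚ/ℚ) →* GL (Fin n) A), Continuous ρ →
        UnramifiedOutside S ρ → ResiduallyUnipotent ρ → Symplectic ρ →
        InertiaByTransvections p S ρ → ∀ g, ρ g = 1

open Classical in
/-- The primes `q ≤ x` with `p ∣ q - 1`. -/
noncomputable def primesUpTo (p x : ℕ) : Finset ℕ :=
  (Finset.range (x + 1)).filter fun q => q.Prime ∧ p ∣ q - 1

open Classical in
/-- `Most p δ R m T`: for all primes `q₁ ≡ 1 mod p`, `q₁ ∉ T`, but a proportion of at most `δ`, for
all primes `q₂ ≡ 1 mod p`, `q₂ ∉ T ∪ {q₁}`, but a proportion of at most `δ`, …, for all primes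
`q_m ≡ 1 mod p`, `q_m ∉ T ∪ {q₁, …, q_{m-1}}`, but a proportion of at most `δ`, the set
`T ∪ {q₁, …, q_m}` has the property `R`. -/
def Most (p : ℕ) (δ : ℝ) (R : Set ℕ → Prop) : ℕ → Set ℕ → Prop
  | 0, T => R T
  | m + 1, T => ∀ ε : ℝ, 0 < ε → ∀ᶠ x : ℕ in atTop, (1 - δ - ε) * ((primesUpTo p x).card : ℝ) ≤
      (((primesUpTo p x).filter fun q => q ∉ T ∧ Most p δ R m (insert q T)).card : ℝ)

/-! ### Proof -/

open Classical in
theorem most_iff {p : ℕ} {δ : ℝ} {R : Set ℕ → Prop} (m : ℕ) : ∀ T : Set ℕ,
    Most p δ R m T ↔ H22FM.Most p δ R m T := by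
  induction m with
  | zero => exact fun T => Iff.rfl
  | succ m ih =>
    intro T
    have h : ∀ x, ((primesUpTo p x).filter fun q => q ∉ T ∧ Most p δ R m (insert q T)) =
        (H22FM.Pr p x).filter fun q => q ∉ T ∧ H22FM.Most p δ R m (insert q T) := by
      intro x
      refine Finset.filter_congr fun q _ => ?_
      rw [ih]
    constructor
    · intro h1 ε hε
      filter_upwards [h1 ε hε] with x hx
      rw [h] at hx
      exact hx
    · intro h1 ε hε
      filter_upwards [h1 ε hε] with x hx
      rw [h]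
      exact hx

/-- the criterion -/
theorem crit {p : ℕ} [Fact p.Prime] (hp2 : 2 < p)
    {χ : ∀ j : ℕ, (ZMod j)ˣ →* Multiplicative (ZMod p)} {r : ℕ} {q : Fin r → ℕ}
    (hq : Function.Injective q) (hχ : ∀ i, ∃ x, χ (q i) x ≠ 1)
    (hb : ¬ H22FM.Bad r (N829.QD.dat χ q)) : OnlyTrivial p (Set.range q) := by
  intro S hS A _ _ _ _ hA hfin hpA hreg n ρ hρ hur hres hsp hin g
  obtain ⟨J, hJ, hJu, hJρ⟩ := hsp
  obtain ⟨d⟩ := TH831.NA.exists_dt S (fun l hl => ⟨(hS l hl).1, (hS l hl).2.1⟩) χ
    (fun l hl hpl => by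
      obtain ⟨i, rfl⟩ := (hS l hl).2.2 hpl
      exact hχ i)
  refine H22FM.general hp2 (fun l hl => ⟨(hS l hl).1, (hS l hl).2.1⟩) d hq hb
    (fun l hl hpl => (hS l hl).2.2 hpl) hfin hpA hreg hJ hJu (ρ := ρ)
    (fun N => TH831.NA.cts_memN hA hρ N) hres (fun g hg => ?_)
    (fun l hl hpl => hJρ _) (fun l hl hpl => ?_) g
  · obtain ⟨P, hP, hPS, hgP⟩ := hg
    exact hur P hP hPS g hgP
  · exact hin l hl hpl (d.P l) (d.hP l (hS l hl).1).1 (d.hP l (hS l hl).1).2 (d.τ l)
      (d.hτ l hl hpl)

/-- The theorem. -/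
theorem result (r : ℕ) (δ : ℝ) (hδ : 0 < δ) :
    ∃ p₀ : ℕ, ∀ p : ℕ, p.Prime → p₀ ≤ p → Most p δ (OnlyTrivial p) r ∅ := by
  obtain ⟨p₀, hp₀⟩ := H22FM.most r OnlyTrivial (fun p _ hp2 χ hχ l hl hpl hli hb =>
    crit hp2 hli (fun i => (hχ (l i) (hl i) (hpl i)).1) hb) δ hδ
  refine ⟨p₀, fun p hp hpp => ?_⟩
  have : Fact p.Prime := ⟨hp⟩
  exact (most_iff r ∅).2 (hp₀ p hpp)

end Pool.Agent.Results.MP_f68ac8_nt.SymplecticTransvections
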